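import Mathlib
import Pool.Agent.X55.HZ.Stm

set_option autoImplicit false

namespace Pool.Agent.X130.HZ

open Finset

theorem det_bound {r : ℕ} (N : Matrix (Fin r) (Fin r) ℤ) (u : Fin r → ℤ)
    (h : ∀ i j, |N i j| ≤ u j) : |N.det| ≤ (r.factorial : ℤ) * ∏ j, u j := by
  rw [Matrix.det_apply]
  refine (Finset.abs_sum_le_sum_abs _ _).trans ?_
  have : ∀ σ ∈ (univ : Finset (Equiv.Perm (Fin r))),
      |Equiv.Perm.sign σ • ∏ i, N (σ i) i| ≤ ∏ j, u j := by
    intro σ _
    have e : |Equiv.Perm.sign σ • ∏ i, N (σ i) i| = ∏ i, |N (σ i) i| := by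
      rcases Int.units_eq_one_or (Equiv.Perm.sign σ) with h1 | h1
      · rw [h1, one_smul, Finset.abs_prod]
      · rw [h1, Units.neg_smul, one_smul, abs_neg, Finset.abs_prod]
    rw [e]
    exact Finset.prod_le_prod (fun i _ => abs_nonneg _) (fun i _ => h _ _)
  refine (Finset.sum_le_sum this).trans ?_
  simp [Fintype.card_perm]

/-- maximal nonsingular minors -/
theorem exists_max {ι κ : Type} [Fintype ι] [DecidableEq ι] [Fintype κ] [DecidableEq κ]
    (A : Matrix ι κ ℤ) : ∃ (r : ℕ) (R : Fin r → ι) (T : Fin r → κ),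
      (A.submatrix R T).det ≠ 0 ∧
      ∀ (R' : Fin (r + 1) → ι) (T' : Fin (r + 1) → κ), (A.submatrix R' T').det = 0 := by
  classical
  by_contra hc
  push Not at hc
  have key : ∀ r : ℕ, ∃ (R : Fin r → ι) (T : Fin r → κ), (A.submatrix R T).det ≠ 0 := by
    intro r
    induction r with
    | zero => exact ⟨Fin.elim0, Fin.elim0, by simp⟩
    | succ r ih =>
      obtain ⟨R, T, h⟩ := ih
      exact hc r R T h
  obtain ⟨R, T, h⟩ := key (Fintype.card κ + 1)
  have : ¬ Function.Injective T := by
    intro hT
    have := Fintype.card_le_of_injective T hT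
    simp at this
  simp only [Function.Injective, not_forall] at this
  obtain ⟨a, b, hab, hne⟩ := this
  apply h
  exact Matrix.det_zero_of_column_eq hne (fun k => by simp [hab])

theorem inj_of_det {ι κ : Type} {r : ℕ} (A : Matrix ι κ ℤ) (R : Fin r → ι) (T : Fin r → κ)
    (h : (A.submatrix R T).det ≠ 0) : Function.Injective T := by
  intro a b hab
  by_contra hne
  exact h (Matrix.det_zero_of_column_eq hne (fun k => by simp [hab]))

/-- every column times `D` is an integer combination of the columns `T` -/
theorem exists_comb {ι κ : Type} {r : ℕ} (A : Matrix ι κ ℤ) (R : Fin r → ι) (T : Fin r → κ)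
    (h : ∀ (R' : Fin (r + 1) → ι) (T' : Fin (r + 1) → κ), (A.submatrix R' T').det = 0) (j : κ) :
    ∃ c : Fin r → ℤ, ∀ i, (A.submatrix R T).det * A i j = ∑ s, c s * A i (T s) := by
  classical
  refine ⟨fun s => - ((-1) ^ (s.succ : ℕ) *
    (A.submatrix R ((Fin.cons j T : Fin (r + 1) → κ) ∘ s.succ.succAbove)).det), fun i => ?_⟩
  have h1 := h (Fin.cons i R) (Fin.cons j T)
  rw [Matrix.det_succ_row_zero, Fin.sum_univ_succ] at h1
  simp only [Matrix.submatrix_apply, Matrix.submatrix_submatrix, Fin.cons_zero, Fin.val_zero,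
    pow_zero, one_mul, Fin.cons_succ] at h1
  have e1 : (Fin.cons i R : Fin (r + 1) → ι) ∘ Fin.succ = R := by
    funext x; simp
  have e2 : (Fin.cons j T : Fin (r + 1) → κ) ∘ (Fin.succAbove 0) = T := by
    funext x; simp
  rw [e1, e2] at h1
  have h2 : (A.submatrix R T).det * A i j = - ∑ x : Fin r, (-1) ^ (x.succ : ℕ) * A i (T x) *
      (A.submatrix R ((Fin.cons j T : Fin (r + 1) → κ) ∘ x.succ.succAbove)).det := by
    linarith
  rw [h2, ← Finset.sum_neg_distrib]
  refine Finset.sum_congr rfl (fun x _ => ?_)
  ring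

theorem t_SML : Pool.Agent.X55.HZ.S_SML := by
  intro ι κ _ _ _ _ A b hA hb ⟨x, hx⟩
  classical
  obtain ⟨r, R, T, hD, hmax⟩ := exists_max A
  have hT := inj_of_det A R T hD
  set D := (A.submatrix R T).det with hDdef
  choose c hc using exists_comb A R T hmax
  have hr : r ≤ Fintype.card κ := by simpa using Fintype.card_le_of_injective T hT
  -- the kernel vectors
  let v : κ → κ → ℤ := fun j k => (∑ s, c j s * (if k = T s then 1 else 0)) - D * (if k = j then 1 else 0)
  have hv : ∀ j, A.mulVec (v j) = 0 := by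
    intro j
    funext i
    have := hc j i
    simp only [Matrix.mulVec, dotProduct, v, mul_sub, Finset.sum_sub_distrib, Finset.mul_sum]
    rw [Finset.sum_comm]
    have e1 : ∀ s : Fin r, ∑ k, A i k * (c j s * (if k = T s then 1 else 0)) = c j s * A i (T s) := by
      intro s
      rw [Finset.sum_eq_single (T s)]
      · simp; ring
      · intro k _ hk; simp [hk]
      · simp
    have e2 : ∑ k, A i k * (D * (if k = j then 1 else 0)) = D * A i j := by
      rw [Finset.sum_eq_single j]
      · simp; ring
      · intro k _ hk; simp [hk]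
      · simp
    rw [Finset.sum_congr rfl (fun s _ => e1 s), e2]
    simp only [Pi.zero_apply]
    rw [this]; ring
  let J : Finset κ := univ.filter (fun j => j ∉ Set.range T)
  let y : κ → ℤ := x + ∑ j ∈ J, (x j / D) • v j
  have hy : A.mulVec y = b := by
    show A.mulVec (x + ∑ j ∈ J, (x j / D) • v j) = b
    rw [Matrix.mulVec_add, hx]
    have : A.mulVec (∑ j ∈ J, (x j / D) • v j) = 0 := by
      rw [← Matrix.mulVecLin_apply, map_sum]
      refine Finset.sum_eq_zero (fun j _ => ?_)
      rw [map_zsmul, Matrix.mulVecLin_apply, hv j, smul_zero]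
    rw [this, add_zero]
  have hyJ : ∀ j ∈ J, y j = x j % D := by
    intro j hj
    have hjT : ∀ s, j ≠ T s := by
      intro s hs
      have : j ∉ Set.range T := (Finset.mem_filter.1 hj).2
      exact this ⟨s, hs.symm⟩
    show x j + (∑ j' ∈ J, (x j' / D) • v j') j = _
    rw [Finset.sum_apply, Finset.sum_eq_single j]
    · simp [v, hjT]
      have := Int.emod_add_mul_ediv (x j) D
      linarith
    · intro k _ hk
      simp [v, hjT, Ne.symm hk]
    · intro h; exact absurd hj h
  have hDr : |D| ≤ (r.factorial : ℤ) := by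
    have := det_bound (A.submatrix R T) (fun _ => 1) (fun i j => hA _ _)
    simpa using this
  have hyJ' : ∀ j ∈ J, |y j| ≤ (r.factorial : ℤ) := by
    intro j hj
    rw [hyJ j hj, abs_of_nonneg (Int.emod_nonneg _ hD)]
    exact (Int.emod_lt_abs _ hD).le.trans hDr
  have hfac : (r.factorial : ℤ) ≤ ((Fintype.card κ).factorial : ℤ) := by
    exact_mod_cast Nat.factorial_le hr
  have hf1 : (1 : ℤ) ≤ (r.factorial : ℤ) := by exact_mod_cast Nat.factorial_pos r
  refine ⟨y, hy, fun j => ?_⟩
  push_cast
  set K : ℤ := (Fintype.card κ : ℤ) with hK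
  have hK0 : 0 ≤ K := by positivity
  set F : ℤ := ((Fintype.card κ).factorial : ℤ) with hF
  by_cases hj : j ∈ J
  · have h1 := hyJ' j hj
    nlinarith [mul_nonneg hK0 (sq_nonneg F), hfac, hf1]
  · have : j ∈ Set.range T := by
      by_contra h
      exact hj (Finset.mem_filter.2 ⟨Finset.mem_univ _, h⟩)
    obtain ⟨s, rfl⟩ := this
    set M := A.submatrix R T with hM
    let β : Fin r → ℤ := fun i => b (R i) - ∑ j ∈ J, A (R i) j * y j
    have hβ : M.mulVec (y ∘ T) = β := by
      funext i
      have h1 : ∑ k, A (R i) k * y k = b (R i) := by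
        have := congrFun hy (R i)
        simpa [Matrix.mulVec, dotProduct] using this
      have h2 : ∑ k, A (R i) k * y k = ∑ k ∈ J, A (R i) k * y k + ∑ k ∈ Jᶜ, A (R i) k * y k :=
        (Finset.sum_add_sum_compl J _).symm
      have h3 : Jᶜ = univ.image T := by
        ext k
        simp [J]
      have h4 : ∑ k ∈ Jᶜ, A (R i) k * y k = ∑ s, A (R i) (T s) * y (T s) := by
        rw [h3, Finset.sum_image (fun a _ b _ h => hT h)]
      simp only [Matrix.mulVec, dotProduct, β, hM, Matrix.submatrix_apply, Function.comp]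
      linarith
    have hcr : M.cramer β = D • (y ∘ T) := by
      rw [Matrix.cramer_eq_adjugate_mulVec, ← hβ, Matrix.mulVec_mulVec, Matrix.adjugate_mul,
        Matrix.smul_mulVec, Matrix.one_mulVec]
    have hcs : D * y (T s) = (M.updateCol s β).det := by
      have := congrFun hcr s
      rw [Matrix.cramer_apply] at this
      simpa using this.symm
    set C : ℤ := 1 + K * (r.factorial : ℤ) with hC
    have hC1 : 1 ≤ C := by
      have : 0 ≤ K * (r.factorial : ℤ) := by positivity
      linarith
    have hβb : ∀ i, |β i| ≤ C := by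
      intro i
      have h1 : |∑ j ∈ J, A (R i) j * y j| ≤ K * (r.factorial : ℤ) := by
        refine (Finset.abs_sum_le_sum_abs _ _).trans ?_
        have : ∀ j ∈ J, |A (R i) j * y j| ≤ (r.factorial : ℤ) := by
          intro j hj
          rw [abs_mul]
          have h1 := hA (R i) j
          have h2 := hyJ' j hj
          have h3 := abs_nonneg (y j)
          have h4 := abs_nonneg (A (R i) j)
          nlinarith
        refine (Finset.sum_le_sum this).trans ?_
        rw [Finset.sum_const, nsmul_eq_mul]
        have : (J.card : ℤ) ≤ K := by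
          rw [hK]; exact_mod_cast Finset.card_le_univ J
        nlinarith
      calc |β i| ≤ |b (R i)| + |∑ j ∈ J, A (R i) j * y j| := abs_sub _ _
        _ ≤ C := by have := hb (R i); linarith
    have hdet : |(M.updateCol s β).det| ≤ (r.factorial : ℤ) * C := by
      have := det_bound (M.updateCol s β) (fun j => if j = s then C else 1) (by
        intro i j
        by_cases h : j = s
        · subst h; simpa using hβb i
        · simp only [Matrix.updateCol_ne h, if_neg h]
          exact hA _ _)
      simpa using this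
    have hD1 : 1 ≤ |D| := Int.one_le_abs hD
    have h5 : |y (T s)| ≤ (r.factorial : ℤ) * C := by
      have h6 : |D| * |y (T s)| ≤ (r.factorial : ℤ) * C := by
        rw [← abs_mul, hcs]; exact hdet
      have h7 := abs_nonneg (y (T s))
      nlinarith
    refine h5.trans ?_
    rw [hC]
    have h8 : (r.factorial : ℤ) * (1 + K * (r.factorial : ℤ)) ≤ F * (1 + K * F) := by
      have h9 : K * (r.factorial : ℤ) ≤ K * F := mul_le_mul_of_nonneg_left hfac hK0
      have h10 : 0 ≤ K * (r.factorial : ℤ) := by positivity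
      nlinarith
    nlinarith [mul_nonneg hK0 (sq_nonneg F), hfac, hf1]

end Pool.Agent.X130.HZ
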